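import Pool.Agent.Q195.Tripod.Net

/-!
# Tripod rigidity of geodesic nets fails for arbitrarily small positive curvature
-/

namespace Pool.Agent.Results.MP_34cb49_gt.NoTripodRigidity

open Q195.Tripod

/-- For every `ε > 0` there is a (complete) Riemannian plane with `∫ K⁺ dA < ε` carrying a geodesic
net with exactly three unbalanced vertices that is not a three-edge star. -/
theorem result (ε : ℝ) (hε : 0 < ε) : ∃ g : RPlane, g.BoundedBelow ∧
    g.totalPosCurv < ENNReal.ofReal ε ∧
      ∃ N : GeodesicNet g, N.U.ncard = 3 ∧ ¬ N.IsTripod :=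
  main ε hε

end Pool.Agent.Results.MP_34cb49_gt.NoTripodRigidity
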